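import Pool.Agent.Helper892.EL.Main

/-!
The pigeonhole principle for the abscissas at a real place.
-/

set_option autoImplicit false

open WeierstrassCurve NumberField

namespace Pool.Agent.Helper892.EL

variable {K : Type} [Field K] [NumberField K] [DecidableEq K] {W : WeierstrassCurve K}

theorem main [W.IsElliptic] (hW : Short W) (w : InfinitePlace K) (hw : w.IsReal) {ρ : ℕ}
    (Q : Fin (ρ + 1) → W.toAffine.Point)
    (hQ : ∀ n : Fin (ρ + 1) → ℤ, ∑ i, n i • Q i = 0 → n = 0) :
    ∃ C : ℝ, ∀ B : ℝ, ∃ P : W.toAffine.Point, P ≠ 0 ∧ B ≤ hx P ∧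
      (ρ + 1 : ℝ) * Real.log (hx P) - C ≤ Real.log (lx w.1 P) := by
  classical
  set σ := InfinitePlace.embedding_of_isReal hw with hσ
  have hσw : ∀ x : K, |σ x| = w x := fun x => by
    rw [← Real.norm_eq_abs]
    exact InfinitePlace.norm_embedding_of_isReal hw x
  -- the points
  set S : (Fin (ρ + 1) → ℕ) → W.toAffine.Point := fun m => ∑ i, m i • Q i with hS
  have hadd : ∀ m m' : Fin (ρ + 1) → ℕ, S m + S m' = ∑ i, ((m i : ℤ) + m' i) • Q i := by
    intro m m'
    simp only [hS, add_smul, Finset.sum_add_distrib, natCast_zsmul]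
  have hsub : ∀ m m' : Fin (ρ + 1) → ℕ, S m - S m' = ∑ i, ((m i : ℤ) - m' i) • Q i := by
    intro m m'
    simp only [hS, sub_smul, Finset.sum_sub_distrib, natCast_zsmul]
  set mm : (Fin (ρ + 1) → ℕ) → Bool → (Fin (ρ + 1) → ℕ) := fun n e i =>
    n i + if i = 0 ∧ e = true then 1 else 0 with hmm
  have hmm0 : ∀ n, S (mm n false) = S n := by
    intro n
    simp [hS, hmm]
  have hmm1 : ∀ n, S (mm n true) = S n + Q 0 := by
    intro n
    simp only [hS, hmm, and_true, add_smul, Finset.sum_add_distrib]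
    congr 1
    rw [Finset.sum_eq_single 0]
    · simp
    · intro i _ hi
      simp [hi]
    · intro h
      exact absurd (Finset.mem_univ _) h
  have hQ0 : Q 0 + Q 0 ≠ 0 := by
    intro h
    have h1 := hQ (fun i => if i = 0 then 2 else 0) (by
      rw [Finset.sum_eq_single 0]
      · simp only [if_true, two_smul]
        exact h
      · intro i _ hi
        simp [hi]
      · intro h
        exact absurd (Finset.mem_univ _) h)
    have h2 := congrFun h1 0
    simp at h2
  obtain ⟨T, hT⟩ := far hW w.1 (Q 0) hQ0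
  obtain ⟨c, hc0, hc⟩ := pair hW w.1 T
  obtain ⟨C1, hC10, hC1⟩ := box hW Q
  have hgood : ∀ n : Fin (ρ + 1) → ℕ, ∃ e : Bool, S (mm n e) + S (mm n e) ≠ 0 ∧
      lx w.1 (S (mm n e) + S (mm n e)) ≤ T := by
    intro n
    rcases hT (S n) with h | h
    · exact ⟨false, by rw [hmm0]; exact h⟩
    · exact ⟨true, by rw [hmm1]; exact h⟩
  choose e he1 he2 using hgood
  have hne : ∀ n, S (mm n (e n)) ≠ 0 := by
    intro n h
    apply he1 n
    rw [h, add_zero]
  choose X Y hXY hXYe using fun n => ne_zero_some (hne n)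
  set C : ℝ := (ρ + 1) * Real.log (C1 + 1) - Real.log c + 2 * Real.log 32 with hC
  refine ⟨C, fun B => ?_⟩
  -- the size of the box
  obtain ⟨N, hN⟩ := exists_nat_ge (max 32 (Real.exp (max B 1 - Real.log c + 2 * Real.log 32)))
  have hN32 : 32 ≤ N := by exact_mod_cast (le_max_left _ _).trans hN
  have hNr : (32 : ℝ) ≤ N := by exact_mod_cast hN32
  have hlN : max B 1 - Real.log c + 2 * Real.log 32 ≤ Real.log N := by
    rw [Real.le_log_iff_exp_le (by linarith)]
    exact (le_max_right _ _).trans hN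
  have hlN0 : 0 ≤ Real.log N := Real.log_natCast_nonneg N
  set M : ℕ := N ^ (ρ + 1) with hM
  have hMN : N ≤ M := Nat.le_self_pow (by omega) N
  set L : ℕ := M / 16 with hL
  have hL1 : 1 ≤ L := by omega
  have hML : M ≤ 32 * L := by omega
  have hLr : (1 : ℝ) ≤ L := by exact_mod_cast hL1
  set cl : (Fin (ρ + 1) → Fin N) → Bool × Bool × ℤ := fun n =>
    (e (fun i => (n i : ℕ)), decide (w (X (fun i => (n i : ℕ))) ≤ 1),
      if w (X (fun i => (n i : ℕ))) ≤ 1 then ⌊(L : ℝ) * σ (X (fun i => (n i : ℕ)))⌋ else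
        ⌊(L : ℝ) * σ (X (fun i => (n i : ℕ)))⁻¹⌋) with hcl
  have hfloor : ∀ x : K, w x ≤ 1 → ⌊(L : ℝ) * σ x⌋ ∈ Finset.Icc (-(L : ℤ)) L := by
    intro x hx
    have h1 := abs_le.1 ((hσw x).le.trans hx)
    rw [Finset.mem_Icc]
    constructor
    · rw [Int.le_floor]
      push_cast
      nlinarith
    · have : ((⌊(L : ℝ) * σ x⌋ : ℤ) : ℝ) ≤ L := (Int.floor_le _).trans (by nlinarith)
      exact_mod_cast this
  have hmaps : ∀ n ∈ (Finset.univ : Finset (Fin (ρ + 1) → Fin N)),
      cl n ∈ (Finset.univ : Finset Bool) ×ˢ ((Finset.univ : Finset Bool) ×ˢ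
        Finset.Icc (-(L : ℤ)) L) := by
    intro n _
    rw [Finset.mem_product, Finset.mem_product]
    refine ⟨Finset.mem_univ _, Finset.mem_univ _, ?_⟩
    simp only [hcl]
    split_ifs with h
    · exact hfloor _ h
    · refine hfloor _ ?_
      rw [map_inv₀]
      push Not at h
      exact inv_le_one_of_one_le₀ h.le
  have hcard : ((Finset.univ : Finset Bool) ×ˢ ((Finset.univ : Finset Bool) ×ˢ
        Finset.Icc (-(L : ℤ)) L)).card < (Finset.univ : Finset (Fin (ρ + 1) → Fin N)).card := by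
    rw [Finset.card_product, Finset.card_product, Finset.card_univ, Fintype.card_bool,
      Int.card_Icc, Finset.card_univ, Fintype.card_fun, Fintype.card_fin, Fintype.card_fin]
    have : ((L : ℤ) + 1 - -(L : ℤ)).toNat = 2 * L + 1 := by omega
    rw [this]
    omega
  obtain ⟨n, -, n', -, hnn, hcleq⟩ := Finset.exists_ne_map_eq_of_card_lt_of_maps_to hcard hmaps
  set n1 : Fin (ρ + 1) → ℕ := fun i => (n i : ℕ) with hn1
  set n2 : Fin (ρ + 1) → ℕ := fun i => (n' i : ℕ) with hn2
  simp only [hcl, Prod.mk.injEq] at hcleq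
  obtain ⟨hee, hchart, hk⟩ := hcleq
  have hchart' : w (X n1) ≤ 1 ↔ w (X n2) ≤ 1 := by
    simpa using hchart
  have hn12 : n1 ≠ n2 := by
    intro h
    apply hnn
    funext i
    exact Fin.ext (congrFun h i)
  -- sum and difference
  have hsum0 : S (mm n1 (e n1)) + S (mm n2 (e n2)) ≠ 0 := by
    intro h
    rw [hadd] at h
    have h1 := hQ _ h
    apply hn12
    funext i
    have h2 := congrFun h1 i
    simp only [hmm, Pi.zero_apply] at h2
    push_cast at h2
    split_ifs at h2 <;> omega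
  have hsub0 : S (mm n1 (e n1)) - S (mm n2 (e n2)) ≠ 0 := by
    intro h
    rw [hsub] at h
    have h1 := hQ _ h
    apply hn12
    funext i
    have h2 := congrFun h1 i
    simp only [hmm, Pi.zero_apply] at h2
    rw [← hee] at h2
    push_cast at h2
    split_ifs at h2 <;> omega
  -- close abscissas
  have hLinv : (L : ℝ) * (1 / L) = 1 := mul_one_div_cancel (by linarith)
  have hdiff : ∀ a b : K, ⌊(L : ℝ) * σ a⌋ = ⌊(L : ℝ) * σ b⌋ → w (a - b) ≤ 1 / L := by
    intro a b hab
    have h1 := Int.abs_sub_lt_one_of_floor_eq_floor hab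
    rw [← mul_sub, abs_mul, abs_of_pos (by linarith : (0 : ℝ) < L), ← map_sub, hσw] at h1
    rw [le_div_iff₀ (by linarith)]
    linarith
  have hcl2 : w.1 (X n1 - X n2) ≤ 1 / L ∨ w.1 (X n1 - X n2) ≤ 1 / L * (w.1 (X n1) * w.1 (X n2)) := by
    by_cases h : w (X n1) ≤ 1
    · left
      rw [if_pos h, if_pos (hchart'.1 h)] at hk
      exact hdiff _ _ hk
    · right
      have h' : ¬ w (X n2) ≤ 1 := fun h2 => h (hchart'.2 h2)
      rw [if_neg h, if_neg h'] at hk
      have h3 := hdiff _ _ hk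
      push Not at h h'
      have hx1 : X n1 ≠ 0 := by
        intro h0
        rw [h0, map_zero] at h
        linarith
      have hx2 : X n2 ≠ 0 := by
        intro h0
        rw [h0, map_zero] at h'
        linarith
      have e3 : X n1 - X n2 = -((X n1)⁻¹ - (X n2)⁻¹) * (X n1 * X n2) := by
        field_simp
        ring
      have e4 : w.1 (X n1 - X n2) = w.1 ((X n1)⁻¹ - (X n2)⁻¹) * (w.1 (X n1) * w.1 (X n2)) := by
        conv_lhs => rw [e3]
        rw [map_mul, map_mul, AbsoluteValue.map_neg]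
      rw [e4]
      refine mul_le_mul_of_nonneg_right h3 ?_
      exact mul_nonneg (apply_nonneg _ _) (apply_nonneg _ _)
  have h2P := he1 n1
  have h2T := he2 n1
  rw [hXYe n1] at h2P h2T
  rw [hXYe n1, hXYe n2] at hsum0 hsub0
  have hfin := hc (X n1) (Y n1) (X n2) (Y n2) (hXY n1) (hXY n2) (1 / L) (by positivity) hcl2
    h2P h2T hsum0 hsub0
  rw [← hXYe n1, ← hXYe n2] at hfin hsum0 hsub0
  -- heights
  have hmmN : ∀ n : Fin (ρ + 1) → Fin N, ∀ b : Bool, ∀ i, mm (fun i => (n i : ℕ)) b i ≤ N := by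
    intro n b i
    have := (n i).2
    simp only [hmm]
    split_ifs <;> omega
  obtain ⟨hh1, hh2⟩ := hC1 N (mm n1 (e n1)) (mm n2 (e n2)) (by omega) (hmmN n (e n1))
    (hmmN n' (e n2))
  have hconc : ∀ P : W.toAffine.Point, P ≠ 0 → c ≤ (1 / (L : ℝ)) ^ 2 * lx w.1 P →
      hx P ≤ C1 * N ^ 2 → P ≠ 0 ∧ B ≤ hx P ∧
        (ρ + 1 : ℝ) * Real.log (hx P) - C ≤ Real.log (lx w.1 P) := by
    intro P hP h1 h2
    have h3 : c * (L : ℝ) ^ 2 ≤ lx w.1 P := by
      rw [one_div, inv_pow, ← div_eq_inv_mul, le_div_iff₀ (by positivity)] at h1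
      exact h1
    have h4 : c * ((M : ℝ) / 32) ^ 2 ≤ lx w.1 P := by
      refine le_trans ?_ h3
      refine mul_le_mul_of_nonneg_left ?_ hc0.le
      refine pow_le_pow_left₀ (by positivity) ?_ 2
      rw [div_le_iff₀ (by norm_num)]
      have : (M : ℝ) ≤ 32 * L := by exact_mod_cast hML
      linarith
    have hMpos : (0 : ℝ) < M := by
      have : 0 < M := by omega
      exact_mod_cast this
    have h5 := Real.log_le_log (by positivity) h4
    have h6 : Real.log (c * ((M : ℝ) / 32) ^ 2) =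
        Real.log c + 2 * ((ρ + 1) * Real.log N - Real.log 32) := by
      rw [Real.log_mul hc0.ne' (by positivity), Real.log_pow, Real.log_div hMpos.ne' (by norm_num),
        hM]
      push_cast
      rw [Real.log_pow]
      push_cast
      ring
    rw [h6] at h5
    have hρ : (0 : ℝ) ≤ ρ := Nat.cast_nonneg _
    have h7 : Real.log N ≤ 2 * ((ρ + 1) * Real.log N) := by nlinarith
    have h8 : max B 1 ≤ Real.log (lx w.1 P) := by linarith
    have h9 := h8.trans (log_lx_le w hP)
    have h10 : 1 ≤ hx P := (le_max_right _ _).trans h9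
    refine ⟨hP, (le_max_left _ _).trans h9, ?_⟩
    have h11 : Real.log (hx P) ≤ Real.log (C1 + 1) + 2 * Real.log N := by
      have h12 : hx P ≤ (C1 + 1) * (N : ℝ) ^ 2 := by
        refine h2.trans (mul_le_mul_of_nonneg_right (by linarith) (by positivity))
      have h13 := Real.log_le_log (by linarith) h12
      rw [Real.log_mul (by positivity) (by positivity), Real.log_pow] at h13
      push_cast at h13
      exact h13
    have h14 : (ρ + 1 : ℝ) * Real.log (hx P) ≤ (ρ + 1) * (Real.log (C1 + 1) + 2 * Real.log N) :=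
      mul_le_mul_of_nonneg_left h11 (by positivity)
    rw [hC]
    linarith
  rcases hfin with h | h
  · exact ⟨_, hconc _ hsum0 h hh1⟩
  · exact ⟨_, hconc _ hsub0 h hh2⟩

end Pool.Agent.Helper892.EL
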