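import Pool.Agent.Helper892.EL.Rel

/-!
The height of a sum of multiples of points.
-/

set_option autoImplicit false

open WeierstrassCurve MvPolynomial

namespace Pool.Agent.Helper892.EL

variable {K : Type} [Field K] [NumberField K] [DecidableEq K] {W : WeierstrassCurve K}

/-- the height of the abscissa -/
noncomputable def hx (P : W.toAffine.Point) : ℝ := Height.logHeight P.xRep

lemma hx_nonneg (P : W.toAffine.Point) : 0 ≤ hx P := Height.logHeight_nonneg _

lemma hx_neg (P : W.toAffine.Point) : hx (-P) = hx P := by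
  unfold hx
  rw [Affine.Point.xRep_neg]

lemma vec2 (p : Fin 2 → K) : p = ![p 0, p 1] := by
  funext i
  fin_cases i <;> rfl

/-- half of the parallelogram law -/
theorem para [W.IsElliptic] (hW : Short W) : ∃ C : ℝ, 0 ≤ C ∧ ∀ P Q : W.toAffine.Point,
    hx (P + Q) + hx (P - Q) ≤ 2 * hx P + 2 * hx Q + C := by
  obtain ⟨C1, h1⟩ := Height.logHeight_sym2_ge K
  obtain ⟨C2, h2⟩ := Height.logHeight_sym2_le K
  obtain ⟨C3, h3⟩ := abs_logHeight_addSubMap_sub_two_mul_logHeight_le W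
  have key : ∀ P Q : W.toAffine.Point,
      hx (P + Q) + hx (P - Q) ≤ 2 * hx P + 2 * hx Q + (2 * C2 + C3 - C1) := by
    intro P Q
    obtain ⟨t, ht0, ht⟩ := rel hW P Q
    have e1 : (fun i => (addSubMap W i).eval (P.sym2x Q)) = t • (P + Q).sym2x (P - Q) := by
      funext i
      rw [ht i]
      rfl
    have g1 := h3 (P.sym2x Q)
    rw [e1, Height.logHeight_smul_eq_logHeight _ ht0] at g1
    have g2 := (abs_le.1 g1).2
    have g3 : Height.logHeight (P.sym2x Q) ≤ C2 + hx P + hx Q := by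
      have := h2 (P.xRep 0) (P.xRep 1) (Q.xRep 0) (Q.xRep 1)
      rw [← vec2, ← vec2] at this
      exact this
    have g4 : C1 + hx (P + Q) + hx (P - Q) ≤ Height.logHeight ((P + Q).sym2x (P - Q)) := by
      have := @h1 ((P + Q).xRep 0) ((P + Q).xRep 1) ((P - Q).xRep 0) ((P - Q).xRep 1)
        (by rw [← vec2]; exact Affine.Point.xRep_ne_zero _)
        (by rw [← vec2]; exact Affine.Point.xRep_ne_zero _)
      rw [← vec2, ← vec2] at this
      exact this
    linarith
  refine ⟨max (2 * C2 + C3 - C1) 0, le_max_right _ _, fun P Q => ?_⟩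
  have := key P Q
  have := le_max_left (2 * C2 + C3 - C1) 0
  linarith

section growth

variable {A : Type} [AddCommGroup A] (q : A → ℝ) (hq0 : ∀ a, 0 ≤ q a)
  (hq : ∀ a b, q (a + b) + q (a - b) ≤ 2 * q a + 2 * q b)

include hq0 hq

lemma q_add (a b : A) : q (a + b) ≤ 2 * q a + 2 * q b := by
  have := hq a b
  have := hq0 (a - b)
  linarith

lemma q_sub (a b : A) : q (a - b) ≤ 2 * q a + 2 * q b := by
  have := hq a b
  have := hq0 (a + b)
  linarith

lemma q_nsmul (a : A) (n : ℕ) : q ((n + 1) • a) - q (n • a) ≤ (2 * n + 1) * q a ∧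
    q (n • a) ≤ q 0 + n ^ 2 * q a := by
  induction n with
  | zero =>
    have := hq0 0
    refine ⟨?_, ?_⟩
    · simp only [zero_add, one_smul, zero_smul]
      push_cast
      linarith
    · simp
  | succ n ih =>
    obtain ⟨h1, h2⟩ := ih
    have h3 := hq ((n + 1) • a) a
    have e1 : (n + 1) • a + a = (n + 1 + 1) • a := (succ_nsmul a (n + 1)).symm
    have e2 : (n + 1) • a - a = n • a := by rw [succ_nsmul, add_sub_cancel_right]
    rw [e1, e2] at h3
    push_cast
    constructor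
    · linarith
    · nlinarith

lemma q_sum {r : ℕ} (f : Fin r → A) (s : Finset (Fin r)) :
    q (∑ i ∈ s, f i) ≤ 2 ^ s.card * (q 0 + ∑ i ∈ s, q (f i)) := by
  classical
  induction s using Finset.induction_on with
  | empty => simp
  | insert a s ha ih =>
    rw [Finset.sum_insert ha, Finset.sum_insert ha, Finset.card_insert_of_notMem ha, pow_succ]
    have h1 := q_add q hq0 hq (f a) (∑ i ∈ s, f i)
    have h2 : (1 : ℝ) ≤ 2 ^ s.card := one_le_pow₀ (by norm_num)
    have h3 := hq0 (f a)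
    nlinarith

/-- the growth on boxes -/
lemma q_box {r : ℕ} (f : Fin r → A) : ∃ C : ℝ, 0 ≤ C ∧ ∀ (N : ℕ) (n : Fin r → ℕ), 1 ≤ N →
    (∀ i, n i ≤ N) → q (∑ i, n i • f i) ≤ C * N ^ 2 := by
  refine ⟨2 ^ r * (q 0 + ∑ i : Fin r, (q 0 + q (f i))), ?_, fun N n hN hn => ?_⟩
  · have h1 := hq0 0
    have h2 : 0 ≤ ∑ i : Fin r, (q 0 + q (f i)) :=
      Finset.sum_nonneg fun i _ => add_nonneg h1 (hq0 _)
    positivity
  · have hN' : (1 : ℝ) ≤ N := by exact_mod_cast hN
    have hN2 : (1 : ℝ) ≤ (N : ℝ) ^ 2 := one_le_pow₀ hN'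
    have h0 := hq0 0
    have h1 := q_sum q hq0 hq (fun i => n i • f i) Finset.univ
    rw [Finset.card_univ, Fintype.card_fin] at h1
    refine h1.trans ?_
    have h2 : ∑ i : Fin r, q (n i • f i) ≤ (∑ i : Fin r, (q 0 + q (f i))) * N ^ 2 := by
      rw [Finset.sum_mul]
      refine Finset.sum_le_sum fun i _ => ?_
      have h3 := (q_nsmul q hq0 hq (f i) (n i)).2
      have h4 : ((n i : ℕ) : ℝ) ^ 2 ≤ (N : ℝ) ^ 2 :=
        pow_le_pow_left₀ (Nat.cast_nonneg _) (by exact_mod_cast hn i) 2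
      have h5 := hq0 (f i)
      nlinarith
    have h6 : q 0 ≤ q 0 * N ^ 2 := by nlinarith
    have h7 : (0 : ℝ) < 2 ^ r := by positivity
    calc (2 : ℝ) ^ r * (q 0 + ∑ i : Fin r, q (n i • f i))
        ≤ 2 ^ r * (q 0 * N ^ 2 + (∑ i : Fin r, (q 0 + q (f i))) * N ^ 2) :=
          mul_le_mul_of_nonneg_left (by linarith) h7.le
      _ = _ := by ring

end growth

/-- heights of sums and differences of points in a box -/
theorem box [W.IsElliptic] (hW : Short W) {r : ℕ} (Q : Fin r → W.toAffine.Point) :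
    ∃ C : ℝ, 0 ≤ C ∧ ∀ (N : ℕ) (n n' : Fin r → ℕ), 1 ≤ N → (∀ i, n i ≤ N) → (∀ i, n' i ≤ N) →
      hx (∑ i, n i • Q i + ∑ i, n' i • Q i) ≤ C * N ^ 2 ∧
      hx (∑ i, n i • Q i - ∑ i, n' i • Q i) ≤ C * N ^ 2 := by
  obtain ⟨C, hC0, hC⟩ := para hW
  have hq0 : ∀ a : W.toAffine.Point, 0 ≤ hx a + C := fun a => add_nonneg (hx_nonneg a) hC0
  have hq : ∀ a b : W.toAffine.Point, (hx (a + b) + C) + (hx (a - b) + C) ≤
      2 * (hx a + C) + 2 * (hx b + C) := fun a b => by
    have := hC a b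
    linarith
  obtain ⟨C', hC'0, hC'⟩ := q_box (fun a : W.toAffine.Point => hx a + C) hq0 hq Q
  refine ⟨4 * C', by positivity, fun N n n' hN hn hn' => ?_⟩
  have h1 := hC' N n hN hn
  have h2 := hC' N n' hN hn'
  have h3 := q_add (fun a : W.toAffine.Point => hx a + C) hq0 hq (∑ i, n i • Q i) (∑ i, n' i • Q i)
  have h4 := q_sub (fun a : W.toAffine.Point => hx a + C) hq0 hq (∑ i, n i • Q i) (∑ i, n' i • Q i)
  constructor <;> linarith

end Pool.Agent.Helper892.EL
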