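import Pool.Agent.Helper892.EL.Rel
import Pool.Agent.Helper892.SE.Form

/-!
Local estimates.
-/

set_option autoImplicit false

open WeierstrassCurve MvPolynomial

namespace Pool.Agent.Helper892.EL

variable {K : Type} [Field K] [NumberField K] [DecidableEq K] {W : WeierstrassCurve K}

/-- the local size of the abscissa -/
noncomputable def lx (v : AbsoluteValue K ℝ) (P : W.toAffine.Point) : ℝ :=
  max (v (P.xRep 0)) (v (P.xRep 1))

lemma lx_pos (v : AbsoluteValue K ℝ) {P : W.toAffine.Point} : 0 < lx v P := by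
  rcases P with _ | ⟨x, y, h⟩
  · refine lt_max_of_lt_left ?_
    have : (Affine.Point.zero : W.toAffine.Point).xRep 0 = 1 := rfl
    rw [this, map_one]
    exact one_pos
  · refine lt_max_of_lt_right ?_
    have : (Affine.Point.some x y h : W.toAffine.Point).xRep 1 = 1 := rfl
    rw [this, map_one]
    exact one_pos

lemma xRep_one {P : W.toAffine.Point} (hP : P ≠ 0) : P.xRep 1 = 1 := by
  rcases P with _ | ⟨x, y, h⟩
  · exact absurd rfl hP
  · rfl

lemma lx_one (v : AbsoluteValue K ℝ) {P : W.toAffine.Point} (hP : P ≠ 0) : 1 ≤ lx v P := by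
  unfold lx
  rw [xRep_one hP, map_one]
  exact le_max_right _ _

/-- local Nullstellensatz -/
lemma nsatz [W.IsElliptic] (v : AbsoluteValue K ℝ) : ∃ c : ℝ, 0 < c ∧ ∀ (s : Fin 3 → K) (B : ℝ),
    (∀ j, v ((addSubMap W j).eval s) ≤ B) → ∀ i, c * v (s i) ^ 2 ≤ B := by
  choose D hD0 hD using fun ij : Fin 3 × Fin 3 =>
    Pool.Agent.Helper892.SE.form_le v (C (↑W.Δ'⁻¹ : K) * addSubMapCoeff W ij)
      ((isHomogeneous_addSubMapCoeff W ij).C_mul _)
  set E : ℝ := ∑ ij : Fin 3 × Fin 3, D ij with hE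
  have hE0 : 0 < E := Finset.sum_pos (fun ij _ => hD0 ij) Finset.univ_nonempty
  have hDE : ∀ ij, D ij ≤ E := fun ij =>
    Finset.single_le_sum (fun x _ => (hD0 x).le) (Finset.mem_univ ij)
  refine ⟨1 / (3 * E), by positivity, fun s B hB i => ?_⟩
  set M : ℝ := ⨆ i, v (s i) with hM
  have hle : ∀ i, v (s i) ≤ M := fun i =>
    le_ciSup (f := fun i => v (s i)) (Set.finite_range _).bddAbove i
  obtain ⟨i0, hi0⟩ : ∃ i, v (s i) = M := exists_eq_ciSup_of_finite
  have hM0 : 0 ≤ M := (apply_nonneg v (s 0)).trans (hle 0)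
  have hB0 : 0 ≤ B := (apply_nonneg v _).trans (hB 0)
  have h1 : M ^ 4 ≤ 3 * E * M ^ 2 * B := by
    have h2 := addSubMapCoeff_condition W s i0
    have h3 : M ^ 4 = v (∑ j : Fin 3, (C (↑W.Δ'⁻¹ : K) * addSubMapCoeff W (i0, j)).eval s *
      (addSubMap W j).eval s) := by
      rw [h2, map_pow, hi0]
    rw [h3]
    refine (v.sum_le _ _).trans ?_
    calc ∑ j : Fin 3, v ((C (↑W.Δ'⁻¹ : K) * addSubMapCoeff W (i0, j)).eval s *
          (addSubMap W j).eval s) ≤ ∑ j : Fin 3, E * M ^ 2 * B := by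
          refine Finset.sum_le_sum fun j _ => ?_
          rw [map_mul]
          refine mul_le_mul ((hD (i0, j) s).trans ?_) (hB j) (apply_nonneg v _) (by positivity)
          exact mul_le_mul_of_nonneg_right (hDE _) (by positivity)
      _ = 3 * E * M ^ 2 * B := by
          rw [Finset.sum_const, Finset.card_univ, Fintype.card_fin, nsmul_eq_mul]
          push_cast
          ring
  have h4 : M ^ 2 ≤ 3 * E * B := by
    rcases hM0.eq_or_lt with h | h
    · rw [← h]
      have : 0 ≤ 3 * E * B := by positivity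
      simpa using this
    · have h5 : 0 < M ^ 2 := by positivity
      refine le_of_mul_le_mul_left ?_ h5
      calc M ^ 2 * M ^ 2 = M ^ 4 := by ring
        _ ≤ _ := h1
        _ = _ := by ring
  have h5 : v (s i) ^ 2 ≤ M ^ 2 := pow_le_pow_left₀ (apply_nonneg v _) (hle i) 2
  rw [one_div, inv_mul_le_iff₀ (by positivity)]
  exact h5.trans h4

/-- the second coordinates of `P + Q` and `P - Q` -/
lemma bound_asm [W.IsElliptic] (hW : Short W) (v : AbsoluteValue K ℝ) (P Q : W.toAffine.Point)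
    (h1 : P + Q ≠ 0) (h2 : P - Q ≠ 0) (j : Fin 3) :
    v ((addSubMap W j).eval (P.sym2x Q)) ≤
      2 * v ((addSubMap W 2).eval (P.sym2x Q)) * (lx v (P + Q) * lx v (P - Q)) := by
  obtain ⟨t, -, ht⟩ := rel hW P Q
  have e0 : ∀ A B : W.toAffine.Point, A.sym2x B = ![A.xRep 0 * B.xRep 0,
    A.xRep 0 * B.xRep 1 + A.xRep 1 * B.xRep 0, A.xRep 1 * B.xRep 1] := fun _ _ => rfl
  have h3 : (addSubMap W 2).eval (P.sym2x Q) = t := by
    rw [ht 2, e0 (P + Q)]
    simp [xRep_one h1, xRep_one h2]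
  rw [h3, ht j, map_mul, e0 (P + Q)]
  have a1 : v ((P + Q).xRep 0) ≤ lx v (P + Q) := le_max_left _ _
  have a2 : v ((P - Q).xRep 0) ≤ lx v (P - Q) := le_max_left _ _
  have b1 := lx_one v h1
  have b2 := lx_one v h2
  have n1 := apply_nonneg v ((P + Q).xRep 0)
  have n2 := apply_nonneg v ((P - Q).xRep 0)
  have key : v ((![(P + Q).xRep 0 * (P - Q).xRep 0,
      (P + Q).xRep 0 * (P - Q).xRep 1 + (P + Q).xRep 1 * (P - Q).xRep 0,
      (P + Q).xRep 1 * (P - Q).xRep 1] : Fin 3 → K) j) ≤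
      2 * (lx v (P + Q) * lx v (P - Q)) := by
    rw [xRep_one h1, xRep_one h2]
    fin_cases j
    · simp only [Fin.zero_eta, Fin.isValue, Matrix.cons_val_zero, map_mul]
      have := mul_le_mul a1 a2 n2 (by linarith)
      have h0 : 0 ≤ lx v (P + Q) * lx v (P - Q) := by positivity
      linarith
    · simp only [Fin.mk_one, Fin.isValue, Matrix.cons_val_one, Matrix.cons_val_zero, mul_one,
        one_mul]
      refine (v.add_le _ _).trans ?_
      nlinarith
    · simp
      nlinarith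
  calc v t * v ((![(P + Q).xRep 0 * (P - Q).xRep 0,
      (P + Q).xRep 0 * (P - Q).xRep 1 + (P + Q).xRep 1 * (P - Q).xRep 0,
      (P + Q).xRep 1 * (P - Q).xRep 1] : Fin 3 → K) j)
      ≤ v t * (2 * (lx v (P + Q) * lx v (P - Q))) :=
        mul_le_mul_of_nonneg_left key (apply_nonneg v t)
    _ = _ := by ring

/-- points with close abscissas -/
theorem close [W.IsElliptic] (hW : Short W) (v : AbsoluteValue K ℝ) : ∃ c : ℝ, 0 < c ∧
    ∀ (x1 y1 x2 y2 : K) (h1 : W.toAffine.Nonsingular x1 y1) (h2 : W.toAffine.Nonsingular x2 y2)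
      (δ : ℝ), 0 ≤ δ → (v (x1 - x2) ≤ δ ∨ v (x1 - x2) ≤ δ * (v x1 * v x2)) →
      (Affine.Point.some x1 y1 h1 + Affine.Point.some x2 y2 h2 : W.toAffine.Point) ≠ 0 →
      (Affine.Point.some x1 y1 h1 - Affine.Point.some x2 y2 h2 : W.toAffine.Point) ≠ 0 →
      c ≤ δ ^ 2 * (lx v (Affine.Point.some x1 y1 h1 + Affine.Point.some x2 y2 h2) *
        lx v (Affine.Point.some x1 y1 h1 - Affine.Point.some x2 y2 h2)) := by
  obtain ⟨c, hc0, hc⟩ := nsatz (W := W) v
  refine ⟨c / 2, by positivity, fun x1 y1 x2 y2 h1 h2 δ hδ hcl hp hm => ?_⟩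
  set P : W.toAffine.Point := Affine.Point.some x1 y1 h1
  set Q : W.toAffine.Point := Affine.Point.some x2 y2 h2
  have e0 : P.sym2x Q = ![x1 * x2, x1 + x2, 1] := Affine.Point.sym2x_some_some h1 h2
  obtain ⟨-, -, f2⟩ := eval_asm hW (P.sym2x Q)
  have e2 : (addSubMap W 2).eval (P.sym2x Q) = (x1 - x2) ^ 2 := by
    rw [f2, e0]
    simp
    ring
  have h3 := hc (P.sym2x Q) _ (fun j => bound_asm hW v P Q hp hm j)
  rw [e2, map_pow] at h3
  set L := lx v (P + Q) * lx v (P - Q) with hL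
  have hL0 : 0 < L := mul_pos (lx_pos v) (lx_pos v)
  rcases hcl with h | h
  · have h4 := h3 2
    rw [e0] at h4
    simp only [Matrix.cons_val, map_one, one_pow, mul_one] at h4
    have h5 : v (x1 - x2) ^ 2 ≤ δ ^ 2 := pow_le_pow_left₀ (apply_nonneg v _) h 2
    have h6 : v (x1 - x2) ^ 2 * L ≤ δ ^ 2 * L := mul_le_mul_of_nonneg_right h5 hL0.le
    linarith
  · have h4 := h3 0
    rw [e0] at h4
    simp only [Matrix.cons_val_zero, map_mul] at h4
    have h5 : v (x1 - x2) ^ 2 ≤ (δ * (v x1 * v x2)) ^ 2 :=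
      pow_le_pow_left₀ (apply_nonneg v _) h 2
    rcases eq_or_ne (v x1 * v x2) 0 with h0 | h0
    · exfalso
      rw [h0, mul_zero] at h
      have h7 : v (x1 - x2) = 0 := le_antisymm h (apply_nonneg v _)
      have h8 : x1 = x2 := sub_eq_zero.1 ((v.eq_zero).1 h7)
      rcases Affine.Point.eq_or_eq_neg_of_xRep_eq_xRep (P := P) (Q := Q)
        (by rw [show P.xRep = ![x1, 1] from rfl, show Q.xRep = ![x2, 1] from rfl, h8]) with h9 | h9
      · exact hm (by rw [h9, sub_self])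
      · exact hp (by rw [h9, neg_add_cancel])
    · have h6 : 0 < (v x1 * v x2) ^ 2 := by positivity
      have h7 : v (x1 - x2) ^ 2 * L ≤ (δ * (v x1 * v x2)) ^ 2 * L :=
        mul_le_mul_of_nonneg_right h5 hL0.le
      have h8 : (c / 2) * (v x1 * v x2) ^ 2 ≤ (δ ^ 2 * L) * (v x1 * v x2) ^ 2 := by
        nlinarith
      exact le_of_mul_le_mul_right h8 h6

end Pool.Agent.Helper892.EL
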