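import Pool.Agent.Helper892.EL.Ult

/-!
Points which are close to the origin at a real place.
-/

set_option autoImplicit false

open WeierstrassCurve NumberField

namespace Pool.Agent.Helper892.EL

variable {K : Type} [Field K] [NumberField K] [DecidableEq K] {W : WeierstrassCurve K}

lemma log_lx_le (w : InfinitePlace K) {P : W.toAffine.Point} (hP : P ≠ 0) :
    Real.log (lx w.1 P) ≤ hx P := by
  rcases P with _ | ⟨x, y, h⟩
  · exact absurd rfl hP
  · have e1 : lx w.1 (Affine.Point.some x y h) = max (w x) 1 := by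
      unfold lx
      rw [Affine.Point.xRep_some]
      simp only [Matrix.cons_val_zero, Matrix.cons_val_one, map_one]
      rfl
    have e2 : hx (Affine.Point.some x y h) = Height.logHeight₁ x := by
      unfold hx
      rw [Affine.Point.xRep_some, Height.logHeight₁_eq_logHeight]
    rw [e1, e2, NumberField.logHeight₁_eq]
    have h0 : ∀ v : InfinitePlace K, 0 ≤ (v.mult : ℝ) * Real.posLog (v x) := fun v =>
      mul_nonneg (Nat.cast_nonneg _) Real.posLog_nonneg
    have h1 : (w.mult : ℝ) * Real.posLog (w x) ≤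
        ∑ v : InfinitePlace K, (v.mult : ℝ) * Real.posLog (v x) :=
      Finset.single_le_sum (fun v _ => h0 v) (Finset.mem_univ w)
    have h2 : 0 ≤ ∑ᶠ v : FinitePlace K, Real.posLog (v x) :=
      finsum_nonneg fun v => Real.posLog_nonneg
    have h3 : (1 : ℝ) ≤ w.mult := by exact_mod_cast InfinitePlace.one_le_mult
    have h4 : Real.log (max (w x) 1) = Real.posLog (w x) := by
      rw [Real.posLog_eq_log_max_one (apply_nonneg w x), max_comm]
    have h5 : 0 ≤ Real.posLog (w x) := Real.posLog_nonneg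
    rw [h4]
    nlinarith

lemma ne_zero_some {P : W.toAffine.Point} (hP : P ≠ 0) : ∃ (x y : K)
    (h : W.toAffine.Nonsingular x y), P = Affine.Point.some x y h := by
  rcases P with _ | ⟨x, y, h⟩
  · exact absurd rfl hP
  · exact ⟨x, y, h, rfl⟩

/-- two points which are far from the points of order two -/
theorem pair [W.IsElliptic] (hW : Short W) (v : AbsoluteValue K ℝ) (T : ℝ) : ∃ c : ℝ, 0 < c ∧
    ∀ (x1 y1 x2 y2 : K) (h1 : W.toAffine.Nonsingular x1 y1) (h2 : W.toAffine.Nonsingular x2 y2)
      (δ : ℝ), 0 ≤ δ → (v (x1 - x2) ≤ δ ∨ v (x1 - x2) ≤ δ * (v x1 * v x2)) →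
      (Affine.Point.some x1 y1 h1 + Affine.Point.some x1 y1 h1 : W.toAffine.Point) ≠ 0 →
      lx v (Affine.Point.some x1 y1 h1 + Affine.Point.some x1 y1 h1) ≤ T →
      (Affine.Point.some x1 y1 h1 + Affine.Point.some x2 y2 h2 : W.toAffine.Point) ≠ 0 →
      (Affine.Point.some x1 y1 h1 - Affine.Point.some x2 y2 h2 : W.toAffine.Point) ≠ 0 →
      c ≤ δ ^ 2 * lx v (Affine.Point.some x1 y1 h1 + Affine.Point.some x2 y2 h2) ∨
      c ≤ δ ^ 2 * lx v (Affine.Point.some x1 y1 h1 - Affine.Point.some x2 y2 h2) := by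
  obtain ⟨c, hc0, hc⟩ := close hW v
  obtain ⟨c', m0, hc'0, hm0, hc'⟩ := ultra hW v
  set m : ℝ := max m0 (T / c') with hm
  have hmm0 : m0 ≤ m := le_max_left _ _
  have hm1 : 1 ≤ m := hm0.trans hmm0
  have hmT : T ≤ c' * m := by
    have := le_max_right m0 (T / c')
    rw [div_le_iff₀ hc'0] at this
    linarith
  refine ⟨c / m, by positivity, ?_⟩
  intro x1 y1 x2 y2 h1 h2 δ hδ hcl h2P hT hp hm'
  have h3 := hc x1 y1 x2 y2 h1 h2 δ hδ hcl hp hm'
  set P : W.toAffine.Point := Affine.Point.some x1 y1 h1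
  set Q : W.toAffine.Point := Affine.Point.some x2 y2 h2
  have hor : lx v (P + Q) ≤ m ∨ lx v (P - Q) ≤ m := by
    by_contra hcon
    push Not at hcon
    obtain ⟨k1, k2⟩ := hcon
    obtain ⟨a, b, h4, e4⟩ := ne_zero_some hp
    obtain ⟨a', b', h5, e5⟩ := ne_zero_some hm'
    have e6 : ∀ {R : W.toAffine.Point} {a b : K} {h : W.toAffine.Nonsingular a b},
        R = Affine.Point.some a b h → m < lx v R → m ≤ v a := by
      intro R a b h e hl
      rw [e] at hl
      unfold lx at hl
      rw [Affine.Point.xRep_some] at hl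
      simp only [Matrix.cons_val_zero, Matrix.cons_val_one, map_one] at hl
      rcases lt_max_iff.1 hl with h | h
      · exact h.le
      · linarith
    have e7 : (Affine.Point.some a b h4 + Affine.Point.some a' b' h5 : W.toAffine.Point) =
        P + P := by
      rw [← e4, ← e5]
      abel
    have h6 := hc' a b a' b' h4 h5 m hmm0 (e6 e4 k1) (e6 e5 k2) (by rw [e7]; exact h2P)
    rw [e7] at h6
    have h7 : v ((P + P).xRep 0) ≤ lx v (P + P) := le_max_left _ _
    linarith
  have n1 : 0 < lx v (P + Q) := lx_pos v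
  have n2 : 0 < lx v (P - Q) := lx_pos v
  have hm0' : 0 < m := by linarith
  rcases hor with h | h
  · right
    rw [div_le_iff₀ hm0']
    calc c ≤ δ ^ 2 * (lx v (P + Q) * lx v (P - Q)) := h3
      _ ≤ δ ^ 2 * (m * lx v (P - Q)) := by
          refine mul_le_mul_of_nonneg_left ?_ (by positivity)
          exact mul_le_mul_of_nonneg_right h n2.le
      _ = _ := by ring
  · left
    rw [div_le_iff₀ hm0']
    calc c ≤ δ ^ 2 * (lx v (P + Q) * lx v (P - Q)) := h3
      _ ≤ δ ^ 2 * (lx v (P + Q) * m) := by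
          refine mul_le_mul_of_nonneg_left ?_ (by positivity)
          exact mul_le_mul_of_nonneg_left h n1.le
      _ = _ := by ring

/-- one of two points is far from the points of order two -/
theorem far [W.IsElliptic] (hW : Short W) (v : AbsoluteValue K ℝ) (Q : W.toAffine.Point)
    (hQ : Q + Q ≠ 0) : ∃ T : ℝ, ∀ P : W.toAffine.Point, (P + P ≠ 0 ∧ lx v (P + P) ≤ T) ∨
      ((P + Q) + (P + Q) ≠ 0 ∧ lx v ((P + Q) + (P + Q)) ≤ T) := by
  obtain ⟨c, m0, hc0, hm0, hc⟩ := ultra hW v
  set m : ℝ := max m0 (lx v (Q + Q) / c) with hm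
  have hmm0 : m0 ≤ m := le_max_left _ _
  have hm1 : 1 ≤ m := hm0.trans hmm0
  have hmT : lx v (Q + Q) ≤ c * m := by
    have := le_max_right m0 (lx v (Q + Q) / c)
    rw [div_le_iff₀ hc0] at this
    linarith
  refine ⟨max m (lx v (Q + Q)), fun P => ?_⟩
  by_contra hcon
  push Not at hcon
  obtain ⟨k1, k2⟩ := hcon
  have neg_lx : ∀ R : W.toAffine.Point, lx v (-R) = lx v R := by
    intro R
    unfold lx
    rw [Affine.Point.xRep_neg]
  have e0 : (P + Q) + (P + Q) = (P + P) + (Q + Q) := by abel
  rcases eq_or_ne (P + P) 0 with h | h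
  · have h1 : (P + Q) + (P + Q) = Q + Q := by rw [e0, h, zero_add]
    have := k2 (by rw [h1]; exact hQ)
    rw [h1] at this
    exact absurd (le_max_right m (lx v (Q + Q))) (not_le.2 this)
  · rcases eq_or_ne ((P + Q) + (P + Q)) 0 with h' | h'
    · have h1 : P + P = -(Q + Q) := by
        rw [e0] at h'
        exact eq_neg_of_add_eq_zero_left h'
      have := k1 h
      rw [h1, neg_lx] at this
      exact absurd (le_max_right m (lx v (Q + Q))) (not_le.2 this)
    · have l1 := (le_max_left m (lx v (Q + Q))).trans_lt (k1 h)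
      have l2 := (le_max_left m (lx v (Q + Q))).trans_lt (k2 h')
      have hn : -(P + P) ≠ 0 := neg_ne_zero.2 h
      obtain ⟨a, b, h4, e4⟩ := ne_zero_some h'
      obtain ⟨a', b', h5, e5⟩ := ne_zero_some hn
      have e6 : ∀ {R : W.toAffine.Point} {a b : K} {h : W.toAffine.Nonsingular a b},
          R = Affine.Point.some a b h → m < lx v R → m ≤ v a := by
        intro R a b h e hl
        rw [e] at hl
        unfold lx at hl
        rw [Affine.Point.xRep_some] at hl
        simp only [Matrix.cons_val_zero, Matrix.cons_val_one, map_one] at hl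
        rcases lt_max_iff.1 hl with h | h
        · exact h.le
        · linarith
      have e7 : (Affine.Point.some a b h4 + Affine.Point.some a' b' h5 : W.toAffine.Point) =
          Q + Q := by
        rw [← e4, ← e5]
        abel
      have h6 := hc a b a' b' h4 h5 m hmm0 (e6 e4 l2) (e6 e5 (by rw [neg_lx]; exact l1))
        (by rw [e7]; exact hQ)
      rw [e7] at h6
      have h7 : v ((Q + Q).xRep 0) ≤ lx v (Q + Q) := le_max_left _ _
      linarith

end Pool.Agent.Helper892.EL
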