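import Pool.Agent.Helper892.EL.Many

/-!
The pigeonhole principle for the abscissas at a complex place: many points.
-/

set_option autoImplicit false

open WeierstrassCurve NumberField

namespace Pool.Agent.Helper892.EL

variable {K : Type} [Field K] [NumberField K] [DecidableEq K] {W : WeierstrassCurve K}

lemma sq_succ_le (l : ℕ) (hl : 1 ≤ l) : (l + 1) * (l + 1) ≤ 4 * (l * l) := by
  nlinarith

theorem manyC [W.IsElliptic] (hW : Short W) (w : InfinitePlace K) {ρ : ℕ}
    (Q : Fin (ρ + 1) → W.toAffine.Point)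
    (hQ : ∀ n : Fin (ρ + 1) → ℤ, ∑ i, n i • Q i = 0 → n = 0) (k0 : ℕ) :
    ∃ C C1 : ℝ, 0 ≤ C1 ∧ ∃ N0 : ℕ, ∀ N : ℕ, N0 ≤ N → ∃ s : Finset K, k0 < s.card ∧
      ∀ x ∈ s, ∃ P : W.toAffine.Point, P ≠ 0 ∧ P.xRep 0 = x ∧ hx P ≤ C1 * N ^ 2 ∧
        (ρ + 1 : ℝ) * Real.log N - C ≤ Real.log (lx w.1 P) := by
  classical
  set σ := w.embedding with hσ
  have hσw : ∀ x : K, ‖σ x‖ = w x := fun x => InfinitePlace.norm_embedding_eq w x
  -- the points
  set S : (Fin (ρ + 1) → ℕ) → W.toAffine.Point := fun m => ∑ i, m i • Q i with hS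
  have hadd : ∀ m m' : Fin (ρ + 1) → ℕ, S m + S m' = ∑ i, ((m i : ℤ) + m' i) • Q i := by
    intro m m'
    simp only [hS, add_smul, Finset.sum_add_distrib, natCast_zsmul]
  have hsub : ∀ m m' : Fin (ρ + 1) → ℕ, S m - S m' = ∑ i, ((m i : ℤ) - m' i) • Q i := by
    intro m m'
    simp only [hS, sub_smul, Finset.sum_sub_distrib, natCast_zsmul]
  set mm : (Fin (ρ + 1) → ℕ) → Bool → (Fin (ρ + 1) → ℕ) := fun n e i =>
    n i + if i = 0 ∧ e = true then 1 else 0 with hmm
  have hmm0 : ∀ n, S (mm n false) = S n := by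
    intro n
    simp [hS, hmm]
  have hmm1 : ∀ n, S (mm n true) = S n + Q 0 := by
    intro n
    simp only [hS, hmm, and_true, add_smul, Finset.sum_add_distrib]
    congr 1
    rw [Finset.sum_eq_single 0]
    · simp
    · intro i _ hi
      simp [hi]
    · intro h
      exact absurd (Finset.mem_univ _) h
  have hQ0 : Q 0 + Q 0 ≠ 0 := by
    intro h
    have h1 := hQ (fun i => if i = 0 then 2 else 0) (by
      rw [Finset.sum_eq_single 0]
      · simp only [if_true, two_smul]
        exact h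
      · intro i _ hi
        simp [hi]
      · intro h
        exact absurd (Finset.mem_univ _) h)
    have h2 := congrFun h1 0
    simp at h2
  obtain ⟨T, hT⟩ := far hW w.1 (Q 0) hQ0
  obtain ⟨c, hc0, hc⟩ := pair hW w.1 T
  obtain ⟨C1, hC10, hC1⟩ := box hW Q
  have hgood : ∀ n : Fin (ρ + 1) → ℕ, ∃ e : Bool, S (mm n e) + S (mm n e) ≠ 0 ∧
      lx w.1 (S (mm n e) + S (mm n e)) ≤ T := by
    intro n
    rcases hT (S n) with h | h
    · exact ⟨false, by rw [hmm0]; exact h⟩
    · exact ⟨true, by rw [hmm1]; exact h⟩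
  choose e he1 he2 using hgood
  have hne : ∀ n, S (mm n (e n)) ≠ 0 := by
    intro n h
    apply he1 n
    rw [h, add_zero]
  choose X Y hXY hXYe using fun n => ne_zero_some (hne n)
  set m : ℕ := 4 * k0 + 4 with hm
  have hm4 : 4 ≤ m := by omega
  have hmr : (4 : ℝ) ≤ m := by exact_mod_cast hm4
  set C : ℝ := Real.log (1024 * m) - Real.log c with hC
  refine ⟨C, C1, hC10, 64 * m, fun N hN => ?_⟩
  have hN1 : 1 ≤ N := by omega
  set M : ℕ := N ^ (ρ + 1) with hM
  have hMN : N ≤ M := Nat.le_self_pow (by omega) N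
  set L : ℕ := Nat.sqrt (M / (64 * m)) with hL
  have hm16 : 0 < 64 * m := by omega
  have hq1 : 1 ≤ M / (64 * m) := by
    rw [Nat.one_le_div_iff hm16]
    omega
  have hL1 : 1 ≤ L := by
    rw [hL, Nat.le_sqrt]
    exact hq1
  have hLL : L * L ≤ M / (64 * m) := Nat.sqrt_le _
  have hLL' : M / (64 * m) < (L + 1) * (L + 1) := Nat.lt_succ_sqrt _
  have hLM : 64 * m * (L * L) ≤ M :=
    (Nat.mul_le_mul_left _ hLL).trans (Nat.mul_div_le M (64 * m))
  have hML : M ≤ 256 * m * (L * L) := by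
    have h1 : M < 64 * m * (M / (64 * m) + 1) := Nat.lt_mul_div_succ M hm16
    have h2 : 64 * m * (M / (64 * m) + 1) ≤ 64 * m * ((L + 1) * (L + 1)) :=
      Nat.mul_le_mul_left _ hLL'
    have h3 : (L + 1) * (L + 1) ≤ 4 * (L * L) := sq_succ_le L hL1
    have h4 : 64 * m * ((L + 1) * (L + 1)) ≤ 64 * m * (4 * (L * L)) := Nat.mul_le_mul_left _ h3
    have h5 : 64 * m * (4 * (L * L)) = 256 * m * (L * L) := by ring
    omega
  have hLr : (1 : ℝ) ≤ L := by exact_mod_cast hL1
  set Z : (Fin (ρ + 1) → ℕ) → K := fun n => if w (X n) ≤ 1 then X n else (X n)⁻¹ with hZ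
  have hZ1 : ∀ n, w (Z n) ≤ 1 := by
    intro n
    simp only [hZ]
    split_ifs with h
    · exact h
    · rw [map_inv₀]
      push Not at h
      exact inv_le_one_of_one_le₀ h.le
  set cl : (Fin (ρ + 1) → Fin N) → Bool × Bool × ℤ × ℤ := fun n =>
    (e (fun i => (n i : ℕ)), decide (w (X (fun i => (n i : ℕ))) ≤ 1),
      ⌊(L : ℝ) * (σ (Z (fun i => (n i : ℕ)))).re⌋, ⌊(L : ℝ) * (σ (Z (fun i => (n i : ℕ)))).im⌋)
    with hcl
  have hfloor : ∀ t : ℝ, |t| ≤ 1 → ⌊(L : ℝ) * t⌋ ∈ Finset.Icc (-(L : ℤ)) L := by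
    intro x hx
    have h1 := abs_le.1 hx
    rw [Finset.mem_Icc]
    constructor
    · rw [Int.le_floor]
      push_cast
      nlinarith
    · have : ((⌊(L : ℝ) * x⌋ : ℤ) : ℝ) ≤ L := (Int.floor_le _).trans (by nlinarith)
      exact_mod_cast this
  have hmaps : ∀ n ∈ (Finset.univ : Finset (Fin (ρ + 1) → Fin N)),
      cl n ∈ (Finset.univ : Finset Bool) ×ˢ ((Finset.univ : Finset Bool) ×ˢ
        (Finset.Icc (-(L : ℤ)) L ×ˢ Finset.Icc (-(L : ℤ)) L)) := by
    intro n _
    rw [Finset.mem_product, Finset.mem_product, Finset.mem_product]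
    refine ⟨Finset.mem_univ _, Finset.mem_univ _, ?_, ?_⟩
    · exact hfloor _ ((Complex.abs_re_le_norm _).trans ((hσw _).le.trans (hZ1 _)))
    · exact hfloor _ ((Complex.abs_im_le_norm _).trans ((hσw _).le.trans (hZ1 _)))
  have hcard : ((Finset.univ : Finset Bool) ×ˢ ((Finset.univ : Finset Bool) ×ˢ
        (Finset.Icc (-(L : ℤ)) L ×ˢ Finset.Icc (-(L : ℤ)) L))).card * m <
        (Finset.univ : Finset (Fin (ρ + 1) → Fin N)).card := by
    rw [Finset.card_product, Finset.card_product, Finset.card_product, Finset.card_univ,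
      Fintype.card_bool, Int.card_Icc, Finset.card_univ, Fintype.card_fun, Fintype.card_fin,
      Fintype.card_fin]
    have : ((L : ℤ) + 1 - -(L : ℤ)).toNat = 2 * L + 1 := by omega
    rw [this]
    rw [← hM]
    have h1 : (2 * L + 1) * (2 * L + 1) ≤ 9 * (L * L) := by nlinarith
    have h2 : m * ((2 * L + 1) * (2 * L + 1)) ≤ m * (9 * (L * L)) := Nat.mul_le_mul_left _ h1
    have h3 : 0 < m * (L * L) := by positivity
    have h4 : 2 * (2 * ((2 * L + 1) * (2 * L + 1))) * m =
      4 * (m * ((2 * L + 1) * (2 * L + 1))) := by ring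
    have h5 : m * (9 * (L * L)) = 9 * (m * (L * L)) := by ring
    have h6 : 64 * m * (L * L) = 64 * (m * (L * L)) := by ring
    omega
  obtain ⟨y, -, hy⟩ := Finset.exists_lt_card_fiber_of_mul_lt_card_of_maps_to hmaps hcard
  set F := {x ∈ (Finset.univ : Finset (Fin (ρ + 1) → Fin N)) | cl x = y} with hF
  obtain ⟨n, hn⟩ : F.Nonempty := Finset.card_pos.1 (by omega)
  have hF' : m ≤ (F.erase n).card := by
    rw [Finset.card_erase_of_mem hn]
    omega
  have hncl : cl n = y := by
    rw [hF, Finset.mem_filter] at hn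
    exact hn.2
  set n1 : Fin (ρ + 1) → ℕ := fun i => (n i : ℕ) with hn1
  -- heights
  have hmmN : ∀ n : Fin (ρ + 1) → Fin N, ∀ b : Bool, ∀ i, mm (fun i => (n i : ℕ)) b i ≤ N := by
    intro n b i
    have := (n i).2
    simp only [hmm]
    split_ifs <;> omega
  have hdiff1 : ∀ a b : ℝ, ⌊(L : ℝ) * a⌋ = ⌊(L : ℝ) * b⌋ → |a - b| ≤ 1 / L := by
    intro a b hab
    have h1 := Int.abs_sub_lt_one_of_floor_eq_floor hab
    rw [← mul_sub, abs_mul, abs_of_pos (by linarith : (0 : ℝ) < L)] at h1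
    rw [le_div_iff₀ (by linarith)]
    linarith
  have hdiff : ∀ a b : K, ⌊(L : ℝ) * (σ a).re⌋ = ⌊(L : ℝ) * (σ b).re⌋ →
      ⌊(L : ℝ) * (σ a).im⌋ = ⌊(L : ℝ) * (σ b).im⌋ → w (a - b) ≤ 2 / L := by
    intro a b h1 h2
    rw [← hσw, map_sub]
    refine (Complex.norm_le_abs_re_add_abs_im _).trans ?_
    rw [Complex.sub_re, Complex.sub_im]
    have h3 := hdiff1 _ _ h1
    have h4 := hdiff1 _ _ h2
    have h5 : (2 : ℝ) / L = 1 / L + 1 / L := by ring
    rw [h5]
    linarith
  have hconc : ∀ P : W.toAffine.Point, P ≠ 0 → c ≤ (2 / (L : ℝ)) ^ 2 * lx w.1 P →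
      hx P ≤ C1 * N ^ 2 → P ≠ 0 ∧ hx P ≤ C1 * N ^ 2 ∧
        (ρ + 1 : ℝ) * Real.log N - C ≤ Real.log (lx w.1 P) := by
    intro P hP h1 h2
    have hL0 : (0 : ℝ) < L := by linarith
    have h3 : c * ((L : ℝ) * L) / 4 ≤ lx w.1 P := by
      have e : (2 / (L : ℝ)) ^ 2 * lx w.1 P = 4 * lx w.1 P / (L * L) := by
        field_simp
        ring
      rw [e, le_div_iff₀ (by positivity)] at h1
      linarith
    have h4 : c * ((M : ℝ) / (1024 * m)) ≤ lx w.1 P := by
      refine le_trans ?_ h3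
      rw [mul_div_assoc]
      refine mul_le_mul_of_nonneg_left ?_ hc0.le
      rw [div_le_iff₀ (by positivity)]
      have : (M : ℝ) ≤ 256 * m * (L * L) := by exact_mod_cast hML
      linarith
    have hMpos : (0 : ℝ) < M := by
      have : 0 < M := by omega
      exact_mod_cast this
    have h5 := Real.log_le_log (by positivity) h4
    have h6 : Real.log (c * ((M : ℝ) / (1024 * m))) =
        Real.log c + ((ρ + 1) * Real.log N - Real.log (1024 * m)) := by
      rw [Real.log_mul hc0.ne' (by positivity),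
        Real.log_div hMpos.ne' (by positivity), hM]
      push_cast
      rw [Real.log_pow]
      push_cast
      ring
    rw [h6] at h5
    exact ⟨hP, h2, by rw [hC]; linarith⟩
  -- each other member of the class gives a point
  have hmember : ∀ n' ∈ F.erase n, e (fun i => (n' i : ℕ)) = e n1 ∧
      ∃ P : W.toAffine.Point, (P = S (mm n1 (e n1)) + S (mm (fun i => (n' i : ℕ)) (e n1)) ∨
        P = S (mm n1 (e n1)) - S (mm (fun i => (n' i : ℕ)) (e n1))) ∧
        P ≠ 0 ∧ hx P ≤ C1 * N ^ 2 ∧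
        (ρ + 1 : ℝ) * Real.log N - C ≤ Real.log (lx w.1 P) := by
    intro n' hn'
    rw [Finset.mem_erase, hF, Finset.mem_filter] at hn'
    obtain ⟨hnn, -, hn'cl⟩ := hn'
    have hcleq : cl n = cl n' := hncl.trans hn'cl.symm
    set n2 : Fin (ρ + 1) → ℕ := fun i => (n' i : ℕ) with hn2
    simp only [hcl, Prod.mk.injEq] at hcleq
    obtain ⟨hee, hchart, hk, hk'⟩ := hcleq
    have hchart' : w (X n1) ≤ 1 ↔ w (X n2) ≤ 1 := by
      simpa using hchart
    have hn12 : n1 ≠ n2 := by
      intro h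
      apply hnn
      funext i
      exact (Fin.ext (congrFun h i)).symm
    -- sum and difference
    have hsum0 : S (mm n1 (e n1)) + S (mm n2 (e n2)) ≠ 0 := by
      intro h
      rw [hadd] at h
      have h1 := hQ _ h
      apply hn12
      funext i
      have h2 := congrFun h1 i
      simp only [hmm, Pi.zero_apply] at h2
      push_cast at h2
      split_ifs at h2 <;> omega
    have hsub0 : S (mm n1 (e n1)) - S (mm n2 (e n2)) ≠ 0 := by
      intro h
      rw [hsub] at h
      have h1 := hQ _ h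
      apply hn12
      funext i
      have h2 := congrFun h1 i
      simp only [hmm, Pi.zero_apply] at h2
      rw [← hee] at h2
      push_cast at h2
      split_ifs at h2 <;> omega
    -- close abscissas
    have hcl2 : w.1 (X n1 - X n2) ≤ 2 / L ∨
        w.1 (X n1 - X n2) ≤ 2 / L * (w.1 (X n1) * w.1 (X n2)) := by
      have h3 := hdiff _ _ hk hk'
      by_cases h : w (X n1) ≤ 1
      · left
        simp only [hZ] at h3
        rw [if_pos h, if_pos (hchart'.1 h)] at h3
        exact h3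
      · right
        have h' : ¬ w (X n2) ≤ 1 := fun h2 => h (hchart'.2 h2)
        simp only [hZ] at h3
        rw [if_neg h, if_neg h'] at h3
        push Not at h h'
        have hx1 : X n1 ≠ 0 := by
          intro h0
          rw [h0, map_zero] at h
          linarith
        have hx2 : X n2 ≠ 0 := by
          intro h0
          rw [h0, map_zero] at h'
          linarith
        have e3 : X n1 - X n2 = -((X n1)⁻¹ - (X n2)⁻¹) * (X n1 * X n2) := by
          field_simp
          ring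
        have e4 : w.1 (X n1 - X n2) =
            w.1 ((X n1)⁻¹ - (X n2)⁻¹) * (w.1 (X n1) * w.1 (X n2)) := by
          conv_lhs => rw [e3]
          rw [map_mul, map_mul, AbsoluteValue.map_neg]
        rw [e4]
        refine mul_le_mul_of_nonneg_right h3 ?_
        exact mul_nonneg (apply_nonneg _ _) (apply_nonneg _ _)
    have h2P := he1 n1
    have h2T := he2 n1
    have hsum0' := hsum0
    have hsub0' := hsub0
    rw [hXYe n1] at h2P h2T
    rw [hXYe n1, hXYe n2] at hsum0' hsub0'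
    have hfin := hc (X n1) (Y n1) (X n2) (Y n2) (hXY n1) (hXY n2) (2 / L) (by positivity) hcl2
      h2P h2T hsum0' hsub0'
    rw [← hXYe n1, ← hXYe n2] at hfin
    obtain ⟨hh1, hh2⟩ := hC1 N (mm n1 (e n1)) (mm n2 (e n2)) hN1 (hmmN n (e n1))
      (hmmN n' (e n2))
    refine ⟨hee.symm, ?_⟩
    rw [hee]
    rw [← hee]
    rcases hfin with h | h
    · refine ⟨S (mm n1 (e n1)) + S (mm n2 (e n2)), Or.inl ?_, hconc _ hsum0 h hh1⟩
      rw [← hee]
    · refine ⟨S (mm n1 (e n1)) - S (mm n2 (e n2)), Or.inr ?_, hconc _ hsub0 h hh2⟩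
      rw [← hee]
  choose! hP1 hP2 using hmember
  choose! g hg using hP2
  refine ⟨(F.erase n).image (fun n' => (g n').xRep 0), ?_, ?_⟩
  · have hcount := Finset.card_le_mul_card_image (f := fun n' => (g n').xRep 0) (F.erase n) 4 (by
      intro x hx
      rw [Finset.mem_image] at hx
      obtain ⟨n0, hn0, hxe⟩ := hx
      set R := g n0 with hR
      have hR0 : R ≠ 0 := (hg n0 hn0).2.1
      set A := S (mm n1 (e n1)) with hA
      have hinj : Set.InjOn (fun n' : Fin (ρ + 1) → Fin N => S (mm (fun i => (n' i : ℕ)) (e n1)))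
          (↑({a ∈ F.erase n | (g a).xRep 0 = x}) : Set (Fin (ρ + 1) → Fin N)) := by
        intro a _ b _ hab
        have hab' : S (mm (fun i => (a i : ℕ)) (e n1)) - S (mm (fun i => (b i : ℕ)) (e n1)) = 0 :=
          sub_eq_zero.2 hab
        rw [hsub] at hab'
        have h1 := hQ _ hab'
        funext i
        have h2 := congrFun h1 i
        simp only [hmm, Pi.zero_apply] at h2
        push_cast at h2
        apply Fin.ext
        split_ifs at h2 <;> omega
      refine (Finset.card_le_card_of_injOn (t := {R - A, -R - A, A - R, A + R}) _ ?_ hinj).trans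
        Finset.card_le_four
      intro a ha
      rw [Finset.mem_coe, Finset.mem_filter] at ha
      obtain ⟨haF, hax⟩ := ha
      obtain ⟨hga, hga0, -, -⟩ := hg a haF
      have hpm : g a = R ∨ g a = -R := by
        obtain ⟨x1, y1, h1, e1⟩ := ne_zero_some hga0
        obtain ⟨x2, y2, h2, e2⟩ := ne_zero_some hR0
        have hxx : x1 = x2 := by
          have h3 : (g a).xRep 0 = R.xRep 0 := hax.trans hxe.symm
          rw [e1, e2, Affine.Point.xRep_some, Affine.Point.xRep_some] at h3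
          simpa using h3
        subst hxx
        rw [e1, e2]
        rcases Affine.Y_eq_of_X_eq h1.1 h2.1 rfl with h | h
        · left
          subst h
          rfl
        · right
          rw [Affine.Point.neg_some]
          subst h
          rfl
      simp only [Finset.coe_insert, Finset.coe_singleton, Set.mem_insert_iff,
        Set.mem_singleton_iff]
      rcases hga with h | h <;> rcases hpm with h' | h' <;> rw [h'] at h
      · left
        rw [h]
        abel
      · right; left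
        rw [h]
        abel
      · right; right; left
        rw [h]
        abel
      · right; right; right
        rw [← neg_eq_iff_eq_neg.2 (rfl : -R = -R), h]
        abel)
    omega
  · intro x hx
    rw [Finset.mem_image] at hx
    obtain ⟨n', hn', hxe⟩ := hx
    exact ⟨g n', (hg n' hn').2.1, hxe, (hg n' hn').2.2.1, (hg n' hn').2.2.2⟩

/-- many points, at any infinite place -/
theorem manyA [W.IsElliptic] (hW : Short W) (w : InfinitePlace K) {r : ℕ} (hr : 1 ≤ r)
    (Q : Fin r → W.toAffine.Point) (hQ : LinearIndependent ℤ Q) (k0 : ℕ) :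
    ∃ C C1 : ℝ, 0 ≤ C1 ∧ ∃ N0 : ℕ, ∀ N : ℕ, N0 ≤ N → ∃ s : Finset K, k0 < s.card ∧
      ∀ x ∈ s, ∃ P : W.toAffine.Point, P ≠ 0 ∧ P.xRep 0 = x ∧ hx P ≤ C1 * N ^ 2 ∧
        2 * (r : ℝ) * Real.log N - C ≤ w.mult * Real.log (lx w.1 P) := by
  obtain ⟨ρ, rfl⟩ : ∃ ρ, r = ρ + 1 := ⟨r - 1, by omega⟩
  have hQ' : ∀ n : Fin (ρ + 1) → ℤ, ∑ i, n i • Q i = 0 → n = 0 :=
    fun n hn => funext (Fintype.linearIndependent_iff.1 hQ n hn)
  by_cases hw : w.IsReal
  · obtain ⟨C, C1, hC1, N0, h⟩ := many hW w hw Q hQ' k0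
    refine ⟨C, C1, hC1, N0, fun N hN => ?_⟩
    obtain ⟨s, hs, hsP⟩ := h N hN
    refine ⟨s, hs, fun x hx => ?_⟩
    obtain ⟨P, h1, h2, h3, h4⟩ := hsP x hx
    refine ⟨P, h1, h2, h3, ?_⟩
    have hm : w.mult = 1 := by
      unfold InfinitePlace.mult
      rw [if_pos hw]
    rw [hm]
    push_cast
    linarith
  · obtain ⟨C, C1, hC1, N0, h⟩ := manyC hW w Q hQ' k0
    refine ⟨2 * C, C1, hC1, N0, fun N hN => ?_⟩
    obtain ⟨s, hs, hsP⟩ := h N hN
    refine ⟨s, hs, fun x hx => ?_⟩
    obtain ⟨P, h1, h2, h3, h4⟩ := hsP x hx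
    refine ⟨P, h1, h2, h3, ?_⟩
    have hm : w.mult = 2 := by
      unfold InfinitePlace.mult
      rw [if_neg hw]
    rw [hm]
    push_cast
    linarith

end Pool.Agent.Helper892.EL
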