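import Mathlib

/-!
The map `(P, Q) ↦ (P + Q, P - Q)` on the `x`-coordinates.
-/

set_option autoImplicit false

open WeierstrassCurve MvPolynomial

namespace Pool.Agent.Helper892.EL

variable {K : Type} [Field K] [DecidableEq K] {W : WeierstrassCurve K}

/-- short Weierstrass form -/
structure Short (W : WeierstrassCurve K) : Prop where
  h1 : W.a₁ = 0
  h2 : W.a₂ = 0
  h3 : W.a₃ = 0

lemma eq_short (hW : Short W) {x y : K} (h : W.toAffine.Nonsingular x y) :
    y ^ 2 = x ^ 3 + W.a₄ * x + W.a₆ := by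
  have := (WeierstrassCurve.Affine.equation_iff x y).1 h.1
  rw [hW.h1, hW.h2, hW.h3] at this
  linear_combination this

lemma negY_short (hW : Short W) (x y : K) : W.toAffine.negY x y = -y := by
  unfold WeierstrassCurve.Affine.negY
  rw [hW.h1, hW.h3]
  ring

lemma eval_asm (hW : Short W) (s : Fin 3 → K) :
    (addSubMap W 0).eval s = s 0 ^ 2 - 2 * W.a₄ * s 0 * s 2 - 4 * W.a₆ * s 1 * s 2
      + W.a₄ ^ 2 * s 2 ^ 2 ∧
    (addSubMap W 1).eval s = 2 * s 1 * s 0 + 2 * W.a₄ * s 1 * s 2 + 4 * W.a₆ * s 2 ^ 2 ∧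
    (addSubMap W 2).eval s = s 1 ^ 2 - 4 * s 0 * s 2 := by
  simp only [addSubMap, WeierstrassCurve.b₂, WeierstrassCurve.b₄, WeierstrassCurve.b₆,
    WeierstrassCurve.b₈, hW.h1, hW.h2, hW.h3]
  refine ⟨?_, ?_, ?_⟩ <;> simp <;> ring

lemma xRep_add (hW : Short W) {x1 y1 x2 y2 : K} (h1 : W.toAffine.Nonsingular x1 y1)
    (h2 : W.toAffine.Nonsingular x2 y2) (hx : x1 ≠ x2) :
    (Affine.Point.some x1 y1 h1 + Affine.Point.some x2 y2 h2).xRep =
      ![((y1 - y2) / (x1 - x2)) ^ 2 - x1 - x2, 1] := by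
  rw [Affine.Point.add_of_X_ne hx, Affine.Point.xRep_some]
  simp only [Affine.slope_of_X_ne hx, Affine.addX, hW.h1, hW.h2]
  congr 1
  ring

lemma xRep_sub (hW : Short W) {x1 y1 x2 y2 : K} (h1 : W.toAffine.Nonsingular x1 y1)
    (h2 : W.toAffine.Nonsingular x2 y2) (hx : x1 ≠ x2) :
    (Affine.Point.some x1 y1 h1 - Affine.Point.some x2 y2 h2).xRep =
      ![((y1 + y2) / (x1 - x2)) ^ 2 - x1 - x2, 1] := by
  have e : (Affine.Point.some x1 y1 h1 - Affine.Point.some x2 y2 h2) =
      (Affine.Point.some x1 y1 h1 + -Affine.Point.some x2 y2 h2) := sub_eq_add_neg _ _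
  rw [e, Affine.Point.neg_some, xRep_add hW _ _ hx, negY_short hW]
  congr 1
  ring

lemma xRep_dbl (hW : Short W) {x1 y1 : K} (h1 : W.toAffine.Nonsingular x1 y1) (hy : 2 * y1 ≠ 0) :
    (Affine.Point.some x1 y1 h1 + Affine.Point.some x1 y1 h1).xRep =
      ![((3 * x1 ^ 2 + W.a₄) / (2 * y1)) ^ 2 - x1 - x1, 1] := by
  have hy' : y1 ≠ W.toAffine.negY x1 y1 := by
    rw [negY_short hW]
    intro h
    apply hy
    linear_combination h
  rw [Affine.Point.add_self_of_Y_ne hy', Affine.Point.xRep_some]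
  simp only [Affine.slope_of_Y_ne rfl hy', Affine.addX, hW.h1, hW.h2, negY_short hW]
  congr 1
  ring

lemma rel_zero (hW : Short W) (P : W.toAffine.Point) : ∀ i, (addSubMap W i).eval (P.sym2x 0) =
      1 * (P + 0).sym2x (P - 0) i := by
  obtain ⟨f0, f1, f2⟩ := eval_asm hW (P.sym2x 0)
  rw [add_zero, sub_zero]
  unfold Affine.Point.sym2x at f0 f1 f2 ⊢
  rw [Affine.Point.xRep_zero] at f0 f1 f2 ⊢
  intro i
  fin_cases i
  · simp only [Fin.zero_eta, Fin.isValue]
    rw [f0]
    simp
    ring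
  · simp only [Fin.mk_one, Fin.isValue]
    rw [f1]
    simp
    ring
  · simp only [Fin.reduceFinMk, Fin.isValue]
    rw [f2]
    simp
    ring

lemma rel_ne (hW : Short W) {x1 y1 x2 y2 : K} (h1 : W.toAffine.Nonsingular x1 y1)
    (h2 : W.toAffine.Nonsingular x2 y2) (hx : x1 ≠ x2) : ∀ i, (addSubMap W i).eval
      ((Affine.Point.some x1 y1 h1).sym2x (Affine.Point.some x2 y2 h2)) = (x1 - x2) ^ 2 *
      (Affine.Point.some x1 y1 h1 + Affine.Point.some x2 y2 h2).sym2x
        (Affine.Point.some x1 y1 h1 - Affine.Point.some x2 y2 h2) i := by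
  have e1 := eq_short hW h1
  have e2 := eq_short hW h2
  have hd : x1 - x2 ≠ 0 := sub_ne_zero.2 hx
  obtain ⟨f0, f1, f2⟩ := eval_asm hW
    ((Affine.Point.some x1 y1 h1).sym2x (Affine.Point.some x2 y2 h2))
  unfold Affine.Point.sym2x at f0 f1 f2 ⊢
  rw [xRep_add hW h1 h2 hx, xRep_sub hW h1 h2 hx]
  rw [Affine.Point.xRep_some, Affine.Point.xRep_some] at f0 f1 f2 ⊢
  have H1 : (x1 - x2) * (((y1 - y2) / (x1 - x2)) * ((y1 + y2) / (x1 - x2))) =
      x1 ^ 2 + x1 * x2 + x2 ^ 2 + W.a₄ := by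
    field_simp
    linear_combination e1 - e2
  have H2 : (x1 - x2) ^ 2 * (((y1 - y2) / (x1 - x2)) ^ 2 + ((y1 + y2) / (x1 - x2)) ^ 2) =
      2 * (y1 ^ 2 + y2 ^ 2) := by
    field_simp
    ring
  set A := (y1 - y2) / (x1 - x2)
  set B := (y1 + y2) / (x1 - x2)
  intro i
  fin_cases i
  · simp only [Fin.zero_eta, Fin.isValue]
    rw [f0]
    simp
    linear_combination (-((x1 - x2) * (A * B) + (x1 ^ 2 + x1 * x2 + x2 ^ 2 + W.a₄))) * H1 +
      (x1 + x2) * H2 + 2 * (x1 + x2) * e1 + 2 * (x1 + x2) * e2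
  · simp only [Fin.mk_one, Fin.isValue]
    rw [f1]
    simp
    linear_combination (-1) * H2 - 2 * e1 - 2 * e2
  · simp only [Fin.reduceFinMk, Fin.isValue]
    rw [f2]
    simp
    ring

lemma rel_dbl (hW : Short W) {x y : K} (h : W.toAffine.Nonsingular x y) :
    ∃ t : K, ∀ i, (addSubMap W i).eval
      ((Affine.Point.some x y h).sym2x (Affine.Point.some x y h)) = t *
      (Affine.Point.some x y h + Affine.Point.some x y h).sym2x
        (Affine.Point.some x y h - Affine.Point.some x y h) i := by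
  have e := eq_short hW h
  obtain ⟨f0, f1, f2⟩ := eval_asm hW
    ((Affine.Point.some x y h).sym2x (Affine.Point.some x y h))
  rw [sub_self]
  unfold Affine.Point.sym2x at f0 f1 f2 ⊢
  rw [Affine.Point.xRep_zero]
  by_cases hy : 2 * y = 0
  · have hy' : y = W.toAffine.negY x y := by
      rw [negY_short hW]
      linear_combination hy
    rw [Affine.Point.add_self_of_Y_eq hy', Affine.Point.xRep_zero]
    rw [Affine.Point.xRep_some] at f0 f1 f2 ⊢
    refine ⟨x ^ 4 - 2 * W.a₄ * x ^ 2 - 8 * W.a₆ * x + W.a₄ ^ 2, fun i => ?_⟩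
    fin_cases i
    · simp only [Fin.zero_eta, Fin.isValue]
      rw [f0]
      simp
      ring
    · simp only [Fin.mk_one, Fin.isValue]
      rw [f1]
      simp
      linear_combination (-4) * e + 2 * y * hy
    · simp only [Fin.reduceFinMk, Fin.isValue]
      rw [f2]
      simp
      ring
  · rw [xRep_dbl hW h hy]
    rw [Affine.Point.xRep_some] at f0 f1 f2 ⊢
    have H : (2 * y) ^ 2 * ((3 * x ^ 2 + W.a₄) / (2 * y)) ^ 2 = (3 * x ^ 2 + W.a₄) ^ 2 := by
      rw [div_pow, mul_div_cancel₀]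
      exact pow_ne_zero _ hy
    set A := (3 * x ^ 2 + W.a₄) / (2 * y)
    refine ⟨(2 * y) ^ 2, fun i => ?_⟩
    fin_cases i
    · simp only [Fin.zero_eta, Fin.isValue]
      rw [f0]
      simp
      linear_combination (-1) * H + 8 * x * e
    · simp only [Fin.mk_one, Fin.isValue]
      rw [f1]
      simp
      linear_combination (-4) * e
    · simp only [Fin.reduceFinMk, Fin.isValue]
      rw [f2]
      simp
      ring

/-- the relation -/
theorem rel [W.IsElliptic] (hW : Short W) (P Q : W.toAffine.Point) :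
    ∃ t : K, t ≠ 0 ∧ ∀ i, (addSubMap W i).eval (P.sym2x Q) = t * (P + Q).sym2x (P - Q) i := by
  have key : ∀ (P Q : W.toAffine.Point) (t : K),
      (∀ i, (addSubMap W i).eval (P.sym2x Q) = t * (P + Q).sym2x (P - Q) i) →
      ∃ t : K, t ≠ 0 ∧ ∀ i, (addSubMap W i).eval (P.sym2x Q) = t * (P + Q).sym2x (P - Q) i := by
    intro P Q t h
    refine ⟨t, ?_, h⟩
    rintro rfl
    apply addSubMap_ne_zero W (Affine.Point.sym2x_ne_zero P Q)
    funext i
    rw [h i, zero_mul]
    rfl
  rcases Q with _ | ⟨x2, y2, h2⟩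
  · exact key P 0 1 (rel_zero hW P)
  · rcases P with _ | ⟨x1, y1, h1⟩
    · have h := rel_zero hW (Affine.Point.some x2 y2 h2)
      refine key 0 _ 1 fun i => ?_
      rw [Affine.Point.sym2x_comm, h i, add_zero, sub_zero, zero_add, zero_sub,
        Affine.Point.sym2x_neg_right]
    · by_cases hx : x1 = x2
      · subst hx
        by_cases hy : y1 = y2
        · subst hy
          obtain ⟨t, ht⟩ := rel_dbl hW h1
          exact key _ _ t ht
        · have hy2 : y2 = -y1 := by
            have e1 := eq_short hW h1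
            have e2 := eq_short hW h2
            have h3 : (y1 - y2) * (y1 + y2) = 0 := by linear_combination e1 - e2
            rcases mul_eq_zero.1 h3 with h4 | h4
            · exact absurd (sub_eq_zero.1 h4) hy
            · linear_combination h4
          have e : Affine.Point.some x1 y2 h2 = -Affine.Point.some x1 y1 h1 := by
            rw [Affine.Point.neg_some]
            simp only [negY_short hW, hy2]
          obtain ⟨t, ht⟩ := rel_dbl hW h1
          rw [e]
          refine key _ _ t fun i => ?_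
          rw [Affine.Point.sym2x_neg_right, ht i, add_neg_cancel, sub_neg_eq_add, sub_self,
            Affine.Point.sym2x_comm]
      · exact key _ _ _ (rel_ne hW h1 h2 hx)

end Pool.Agent.Helper892.EL
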