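import Pool.Agent.Helper892.EL.Loc
import Pool.Agent.Helper892.EL.Hgt

/-!
The sum of two points near the origin is near the origin.
-/

set_option autoImplicit false

open WeierstrassCurve MvPolynomial

namespace Pool.Agent.Helper892.EL

variable {K : Type} [Field K] [NumberField K] [DecidableEq K] {W : WeierstrassCurve K}

lemma v_two (v : AbsoluteValue K ℝ) : v 2 ≤ 2 := by
  have h := v.add_le 1 1
  rw [map_one] at h
  norm_num at h
  exact h

lemma v_four (v : AbsoluteValue K ℝ) : v 4 ≤ 4 := by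
  have h : (4 : K) = 2 * 2 := by norm_num
  rw [h, map_mul]
  have h2 := v_two v
  have h3 := apply_nonneg v (2 : K)
  nlinarith

theorem ultra [W.IsElliptic] (hW : Short W) (v : AbsoluteValue K ℝ) : ∃ c m0 : ℝ, 0 < c ∧
    1 ≤ m0 ∧ ∀ (x1 y1 x2 y2 : K) (h1 : W.toAffine.Nonsingular x1 y1)
      (h2 : W.toAffine.Nonsingular x2 y2) (m : ℝ), m0 ≤ m → m ≤ v x1 → m ≤ v x2 →
      (Affine.Point.some x1 y1 h1 + Affine.Point.some x2 y2 h2 : W.toAffine.Point) ≠ 0 →
      c * m < v ((Affine.Point.some x1 y1 h1 + Affine.Point.some x2 y2 h2 :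
        W.toAffine.Point).xRep 0) := by
  set A : ℝ := v W.a₄ with hA
  set B : ℝ := v W.a₆ with hB
  have hA0 : 0 ≤ A := apply_nonneg v _
  have hB0 : 0 ≤ B := apply_nonneg v _
  set E : ℝ := 2 + 2 * A + 4 * B with hE
  have hE2 : 2 ≤ E := by
    rw [hE]
    linarith
  refine ⟨1 / (8 * E), 1 + 2 * (2 * A + 8 * B + A ^ 2), by positivity, by nlinarith, ?_⟩
  intro x1 y1 x2 y2 h1 h2 m hm0 hm1 hm2 hp
  set P : W.toAffine.Point := Affine.Point.some x1 y1 h1
  set Q : W.toAffine.Point := Affine.Point.some x2 y2 h2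
  have e0 : P.sym2x Q = ![x1 * x2, x1 + x2, 1] := Affine.Point.sym2x_some_some h1 h2
  have es : ∀ A B : W.toAffine.Point, A.sym2x B = ![A.xRep 0 * B.xRep 0,
    A.xRep 0 * B.xRep 1 + A.xRep 1 * B.xRep 0, A.xRep 1 * B.xRep 1] := fun _ _ => rfl
  obtain ⟨t, -, ht⟩ := rel hW P Q
  have t0 := ht 0
  have t1 := ht 1
  have t2 := ht 2
  rw [es (P + Q)] at t0 t1 t2
  simp only [Matrix.cons_val_zero, Matrix.cons_val_one, Matrix.cons_val] at t0 t1 t2
  rw [xRep_one hp] at t1 t2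
  set z := (P + Q).xRep 0
  set F0 := (addSubMap W 0).eval (P.sym2x Q)
  set F1 := (addSubMap W 1).eval (P.sym2x Q)
  set F2 := (addSubMap W 2).eval (P.sym2x Q)
  have hroot : F0 = z * (F1 - F2 * z) := by
    rw [t0, t1, t2]
    ring
  obtain ⟨f0, f1, f2⟩ := eval_asm hW (P.sym2x Q)
  rw [e0] at f0 f1 f2
  have g0 : F0 = (x1 * x2) ^ 2 - (2 * W.a₄ * (x1 * x2) + 4 * W.a₆ * (x1 + x2) - W.a₄ ^ 2) := by
    have : F0 = (addSubMap W 0).eval (![x1 * x2, x1 + x2, 1] : Fin 3 → K) := by rw [← e0]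
    rw [this, f0]
    simp
    ring
  have g1 : F1 = 2 * ((x1 + x2) * (x1 * x2)) + 2 * W.a₄ * (x1 + x2) + 4 * W.a₆ := by
    have : F1 = (addSubMap W 1).eval (![x1 * x2, x1 + x2, 1] : Fin 3 → K) := by rw [← e0]
    rw [this, f1]
    simp
    ring
  have g2 : F2 = (x1 - x2) ^ 2 := by
    have : F2 = (addSubMap W 2).eval (![x1 * x2, x1 + x2, 1] : Fin 3 → K) := by rw [← e0]
    rw [this, f2]
    simp
    ring
  set p := v x1 with hp'
  set q := v x2 with hq'
  have hm1' : 1 ≤ m := by nlinarith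
  have hp1 : 1 ≤ p := hm1'.trans hm1
  have hq1 : 1 ≤ q := hm1'.trans hm2
  have hpq1 : 1 ≤ p * q := by nlinarith
  have hsum : v (x1 + x2) ≤ p + q := v.add_le _ _
  have hsum0 : 0 ≤ v (x1 + x2) := apply_nonneg v _
  have v2 := v_two v
  have v4 := v_four v
  have v20 := apply_nonneg v (2 : K)
  have v40 := apply_nonneg v (4 : K)
  have hpq2 : p + q ≤ 2 * (p * q) := by nlinarith
  -- bounds
  have b0 : (p * q) ^ 2 / 2 ≤ v F0 := by
    have h3 : v (2 * W.a₄ * (x1 * x2) + 4 * W.a₆ * (x1 + x2) - W.a₄ ^ 2) ≤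
        (2 * A + 8 * B + A ^ 2) * (p * q) := by
      have i1 := v.sub_le_add (2 * W.a₄ * (x1 * x2) + 4 * W.a₆ * (x1 + x2)) (W.a₄ ^ 2)
      have i2 := v.add_le (2 * W.a₄ * (x1 * x2)) (4 * W.a₆ * (x1 + x2))
      rw [map_mul, map_mul, map_mul v x1 x2, map_mul, map_mul] at i2
      rw [map_pow] at i1
      have j1 : v 2 * v W.a₄ * (v x1 * v x2) ≤ 2 * A * (p * q) := by
        have : v 2 * v W.a₄ ≤ 2 * A := mul_le_mul_of_nonneg_right v2 hA0
        exact mul_le_mul_of_nonneg_right this (by linarith)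
      have j2 : v 4 * v W.a₆ * v (x1 + x2) ≤ 4 * B * (2 * (p * q)) := by
        have : v 4 * v W.a₆ ≤ 4 * B := mul_le_mul_of_nonneg_right v4 hB0
        exact mul_le_mul this (hsum.trans hpq2) hsum0 (by positivity)
      have j3 : v W.a₄ ^ 2 ≤ A ^ 2 * (p * q) := by
        have : 0 ≤ A ^ 2 := sq_nonneg A
        nlinarith
      nlinarith
    have h4 : v ((x1 * x2) ^ 2) - v (2 * W.a₄ * (x1 * x2) + 4 * W.a₆ * (x1 + x2) - W.a₄ ^ 2) ≤
        v F0 := by
      rw [g0]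
      exact v.le_sub _ _
    rw [map_pow, map_mul] at h4
    have h5 : (2 * A + 8 * B + A ^ 2) * (p * q) ≤ (p * q) ^ 2 / 2 := by
      have h6 : 2 * (2 * A + 8 * B + A ^ 2) ≤ p * q := by nlinarith
      nlinarith
    linarith
  have b1 : v F1 ≤ E * ((p + q) * (p * q)) := by
    rw [g1]
    have i1 := v.add_le (2 * ((x1 + x2) * (x1 * x2)) + 2 * W.a₄ * (x1 + x2)) (4 * W.a₆)
    have i2 := v.add_le (2 * ((x1 + x2) * (x1 * x2))) (2 * W.a₄ * (x1 + x2))
    rw [map_mul, map_mul v (x1 + x2), map_mul v x1 x2, map_mul v (2 * W.a₄), map_mul v 2 W.a₄] at i2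
    rw [map_mul v 4] at i1
    have hX : 1 ≤ (p + q) * (p * q) := by nlinarith
    have j1 : v 2 * (v (x1 + x2) * (v x1 * v x2)) ≤ 2 * ((p + q) * (p * q)) := by
      refine mul_le_mul v2 ?_ (by positivity) (by norm_num)
      exact mul_le_mul_of_nonneg_right hsum (by linarith)
    have j2 : v 2 * v W.a₄ * v (x1 + x2) ≤ 2 * A * ((p + q) * (p * q)) := by
      have : v 2 * v W.a₄ ≤ 2 * A := mul_le_mul_of_nonneg_right v2 hA0
      refine mul_le_mul this ?_ hsum0 (by positivity)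
      nlinarith
    have j3 : v 4 * v W.a₆ ≤ 4 * B * ((p + q) * (p * q)) := by
      have : v 4 * v W.a₆ ≤ 4 * B := mul_le_mul_of_nonneg_right v4 hB0
      nlinarith
    rw [hE]
    nlinarith
  have b2 : v F2 ≤ (p + q) ^ 2 := by
    rw [g2, map_pow]
    exact pow_le_pow_left₀ (apply_nonneg v _) (v.sub_le_add _ _) 2
  by_contra hcon
  push Not at hcon
  have hz0 := apply_nonneg v z
  set c : ℝ := 1 / (8 * E) with hc
  have hc0 : 0 < c := by positivity
  have hcE : c * E = 1 / 8 := by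
    rw [hc]
    field_simp
  have hc2 : c ≤ 1 / 16 := by nlinarith
  have k1 : v F0 ≤ (c * m) * (E * ((p + q) * (p * q)) + (p + q) ^ 2 * (c * m)) := by
    rw [hroot, map_mul]
    refine mul_le_mul hcon ?_ (apply_nonneg v _) (by positivity)
    refine (v.sub_le_add _ _).trans ?_
    rw [map_mul]
    exact add_le_add b1 (mul_le_mul b2 hcon hz0 (by positivity))
  have k2 : m * (p + q) ≤ 2 * (p * q) := by nlinarith
  have k3 : (c * m) * (E * ((p + q) * (p * q))) ≤ (1 / 4) * (p * q) ^ 2 := by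
    have : (c * m) * (E * ((p + q) * (p * q))) = (c * E) * ((m * (p + q)) * (p * q)) := by ring
    rw [this, hcE]
    nlinarith
  have k4 : (c * m) * ((p + q) ^ 2 * (c * m)) ≤ (1 / 64) * (p * q) ^ 2 := by
    have : (c * m) * ((p + q) ^ 2 * (c * m)) = c ^ 2 * (m * (p + q)) ^ 2 := by ring
    rw [this]
    have h1 : (m * (p + q)) ^ 2 ≤ (2 * (p * q)) ^ 2 := pow_le_pow_left₀ (by positivity) k2 2
    have h2 : c ^ 2 ≤ (1 / 16) ^ 2 := pow_le_pow_left₀ hc0.le hc2 2
    calc c ^ 2 * (m * (p + q)) ^ 2 ≤ (1 / 16) ^ 2 * (2 * (p * q)) ^ 2 :=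
          mul_le_mul h2 h1 (by positivity) (by positivity)
      _ = (1 / 64) * (p * q) ^ 2 := by ring
  have k5 : 0 < (p * q) ^ 2 := by positivity
  nlinarith

end Pool.Agent.Helper892.EL
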